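import Pool.Agent.Q212.SCFT

/-!
# `MP_abf503_lc`, Q1: yes, and for all forcings

*If `P` is strongly proper for stationarily many models and player II wins the strong countable fan
tightness game on `C_p(X)` (at all points), does `P` force that II wins the game on
`C_p(X)` with the topology generated by the old open sets?*

Yes, and this holds for every notion of forcing `P`, strongly proper or not: a winning strategy
of II at a point `f` gives a strategy in the dual game, which assigns to every finite sequence `s`
of points a neighbourhood `W s` of `f` such that every infinite sequence `g` of points with
`g n ∈ W (g 0, ..., g (n - 1))` for all `n` has `f` in the closure of its range. For a
fixed open set `O` of the ground model with `f ∈ O` this says that a certain tree of finite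
sequences of points outside `O` has no infinite branch, so it has no infinite branch in the
extension. In the extension II answers to the move `A` after the answers `s` with the least
element, in a well-ordering of the ground model, of the nonempty set `A ∩ W s`.

The forcing relation. A sentence of the forcing language of `P` is represented by the set of the
conditions which force it (`Pool.Agent.Helper669.Forcing`); a name of a subset of `Y` is a map from
`Y` to sets of conditions; `WinsForced P y` (in `Pool.Agent.Q212.SCFT`) says that in the
extension II has a winning strategy at `y`, where the topology is generated by the open sets of
the ground model and player I may play arbitrary sets of the extension.
-/

set_option autoImplicit false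

namespace Pool.Agent.Results.MP_abf503_lc.EveryForcing

open Pool.Agent.Q212.SCFT Pool.Agent.Helper669.Forcing

universe u v

/-- The continuous real functions on `X`. As a subtype of the product `X → ℝ` it carries the
topology of pointwise convergence. -/
abbrev Cp (X : Type v) [TopologicalSpace X] : Type v := {f : X → ℝ // Continuous f}

/-- **Main theorem.** Let `P` be any notion of forcing and `X` a topological space. If player II has
a winning strategy in the strong countable fan tightness game at every point of `C_p(X)`,
then every condition of `P` forces that II has a winning strategy at every point of `C_p(X)` with
the topology which is generated in the extension by the open sets of the ground model. -/
theorem result (P : Type u) [Preorder P] (X : Type v) [TopologicalSpace X]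
    (h : ∀ f : Cp X, WinsAt f) (p : P) : p ∈ fall fun f : Cp X => WinsForced P f :=
  fun f => winsForced (h f) p

end Pool.Agent.Results.MP_abf503_lc.EveryForcing
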